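import Pool.Agent.NL.StmtsA

/-!
# Squad NLO, row COU (helper24): a coupling of finitely many probability vectors
-/

set_option autoImplicit false

open MeasureTheory Filter Topology

noncomputable section

namespace Pool.Agent.NL.H24

theorem sup_sum (q : ℝ →₀ ℝ) (hq : Pb q) :
    (∀ x : {x // x ∈ q.support}, 0 < q x) ∧ ∑ x : {x // x ∈ q.support}, q x = 1 ∧
      ∑ x : {x // x ∈ q.support}, q x • Finsupp.single (x : ℝ) (1 : ℝ) = q := by
  refine ⟨fun x => ?_, ?_, ?_⟩
  · exact lt_of_le_of_ne (hq.1 x) (Ne.symm (Finsupp.mem_support_iff.1 x.2))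
  · rw [Finset.sum_coe_sort q.support (fun x => q x)]
    exact hq.2
  · rw [Finset.sum_coe_sort q.support (fun x => q x • Finsupp.single x (1 : ℝ))]
    have h1 : ∑ x ∈ q.support, q x • Finsupp.single x (1 : ℝ) = q.sum Finsupp.single := by
      rw [Finsupp.sum]
      refine Finset.sum_congr rfl fun x _ => ?_
      rw [Finsupp.smul_single, smul_eq_mul, mul_one]
    rw [h1, Finsupp.sum_single]

theorem cou0 (p : ℝ → ℝ →₀ ℝ) (R : Finset ℝ) : (∀ r ∈ R, Pb (p r)) →
    ∃ (ι : Type) (_ : Fintype ι) (w : ι → ℝ) (J : ι → ℝ → ℝ), (∀ i, 0 < w i) ∧ ∑ i, w i = 1 ∧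
      (∀ i, ∀ r ∈ R, J i r ∈ (p r).support) ∧
      ∀ r ∈ R, ∑ i, w i • Finsupp.single (J i r) (1 : ℝ) = p r := by
  classical
  induction R using Finset.induction_on with
  | empty =>
    intro _
    refine ⟨Unit, inferInstance, fun _ => 1, fun _ _ => 0, fun _ => one_pos, by simp, ?_, ?_⟩
    · intro _ r hr
      simp at hr
    · intro r hr
      simp at hr
  | insert r R hr ih =>
    intro h
    obtain ⟨ι, hι, w, J, h1, h2, h3, h4⟩ := ih fun s hs => h s (Finset.mem_insert_of_mem hs)
    obtain ⟨g1, g2, g3⟩ := sup_sum (p r) (h r (Finset.mem_insert_self r R))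
    refine ⟨ι × {x // x ∈ (p r).support}, inferInstance, fun i => w i.1 * p r i.2,
      fun i s => if s = r then (i.2 : ℝ) else J i.1 s, fun i => mul_pos (h1 _) (g1 _), ?_, ?_, ?_⟩
    · rw [Fintype.sum_prod_type]
      have h5 : ∀ i : ι, ∑ x : {x // x ∈ (p r).support}, w i * p r x = w i := by
        intro i
        rw [← Finset.mul_sum, g2, mul_one]
      rw [Finset.sum_congr rfl fun i _ => h5 i, h2]
    · intro i s hs
      change (if s = r then (i.2 : ℝ) else J i.1 s) ∈ (p s).support
      rcases eq_or_ne s r with rfl | hsr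
      · rw [if_pos rfl]
        exact i.2.2
      · rw [if_neg hsr]
        exact h3 _ s ((Finset.mem_insert.1 hs).resolve_left hsr)
    · intro s hs
      rw [Fintype.sum_prod_type]
      rcases eq_or_ne s r with rfl | hsr
      · have h5 : ∀ i : ι, ∑ x : {x // x ∈ (p s).support}, (w i * p s x) •
            Finsupp.single (if s = s then (x : ℝ) else J i s) (1 : ℝ) = w i • p s := by
          intro i
          conv_rhs => rw [← g3, Finset.smul_sum]
          refine Finset.sum_congr rfl fun x _ => ?_
          rw [if_pos rfl, smul_smul]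
        rw [Finset.sum_congr rfl fun i _ => h5 i, ← Finset.sum_smul, h2, one_smul]
      · have h5 : ∀ i : ι, ∑ x : {x // x ∈ (p r).support}, (w i * p r x) •
            Finsupp.single (if s = r then (x : ℝ) else J i s) (1 : ℝ) =
              w i • Finsupp.single (J i s) (1 : ℝ) := by
          intro i
          rw [Finset.sum_congr rfl fun x _ => by rw [if_neg hsr], ← Finset.sum_smul,
            ← Finset.mul_sum, g2, mul_one]
        rw [Finset.sum_congr rfl fun i _ => h5 i]
        exact h4 s ((Finset.mem_insert.1 hs).resolve_left hsr)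

/-- row COU -/
theorem cou : CouStmt := by
  classical
  intro R p h
  obtain ⟨ι, hι, w, J, h1, h2, h3, h4⟩ := cou0 p R h
  let e : ι ≃ Fin (Fintype.card ι) := Fintype.equivFin ι
  have hpos : 0 < Fintype.card ι := by
    rcases Nat.eq_zero_or_pos (Fintype.card ι) with h0 | h0
    · exfalso
      have := Fintype.card_eq_zero_iff.1 h0
      rw [Finset.univ_eq_empty, Finset.sum_empty] at h2
      exact zero_ne_one h2
    · exact h0
  let c : ℕ → ι := fun i => if hi : i < Fintype.card ι then e.symm ⟨i, hi⟩ else e.symm ⟨0, hpos⟩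
  have hc : ∀ i : Fin (Fintype.card ι), c i = e.symm i := fun i => by
    change (if hi : (i : ℕ) < Fintype.card ι then e.symm ⟨i, hi⟩ else e.symm ⟨0, hpos⟩) = _
    rw [dif_pos i.2]
  refine ⟨Fintype.card ι, fun i => w (c i), fun i => J (c i), fun i _ => h1 _, ?_,
    fun i _ r hr => h3 _ r hr, fun r hr => ?_⟩
  · rw [Finset.sum_range (fun i => w (c i)), Finset.sum_congr rfl fun i _ => by rw [hc i],
      Equiv.sum_comp e.symm w, h2]
  · rw [Finset.sum_range (fun i => w (c i) • Finsupp.single (J (c i) r) (1 : ℝ)),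
      Finset.sum_congr rfl fun i _ => by rw [hc i],
      Equiv.sum_comp e.symm (fun i => w i • Finsupp.single (J i r) (1 : ℝ)), h4 r hr]

end Pool.Agent.NL.H24
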